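import Pool.Agent.Helper395.BC.Pencil
import Pool.Agent.Helper395.BC.Duality
import Pool.Agent.Helper395.CS.Hyp

/-!
# Tools for line bundles on curves

A curve is given by its function field, line bundles by local generators, as in
`Pool/Agent/Helper395/CS/Defs.lean`.
-/

set_option autoImplicit false

open scoped WithZero
open WithZero

namespace Pool.Agent.Y207.BN

open Pool.Agent.Helper395.CS hiding genus
open Pool.Agent.Helper395.BC

variable {K : Type} [Field K] [Algebra ℂ K]

/-- the number of sections -/
noncomputable def h0 (L : LineBundle K) : ℕ := Module.finrank ℂ (H0 L)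

theorem mem_H0 (L : LineBundle K) (f : K) :
    f ∈ H0 L ↔ ∀ v : Point K, v.val f ≤ v.val (L.frame v : K) := Iff.rfl

/-- multiplication by `c` is an isomorphism -/
theorem h0_scale {L M : LineBundle K} (c : Kˣ)
    (h : ∀ v : Point K, v.val (M.frame v : K) = v.val (c : K) * v.val (L.frame v : K)) :
    h0 M = h0 L := by
  have hinj : Function.Injective (LinearMap.mulLeft ℂ (c : K)) := by
    intro x y hxy
    exact mul_left_cancel₀ c.ne_zero hxy
  have h1 : H0 M = (H0 L).map (LinearMap.mulLeft ℂ (c : K)) := by
    ext f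
    rw [Submodule.mem_map]
    constructor
    · intro hf
      refine ⟨(c : K)⁻¹ * f, ?_, ?_⟩
      · intro v
        have h2 : v.val f ≤ v.val (M.frame v : K) := hf v
        change v.val ((c : K)⁻¹ * f) ≤ v.val (L.frame v : K)
        rw [h v] at h2
        rw [map_mul, map_inv₀]
        have h3 : 0 < v.val (c : K) := zero_lt_iff.2 (v.val_ne_zero c.ne_zero)
        exact (inv_mul_le_iff₀ h3).2 h2
      · rw [LinearMap.mulLeft_apply, mul_inv_cancel_left₀ c.ne_zero]
    · rintro ⟨g, hg, rfl⟩ v
      have h2 : v.val g ≤ v.val (L.frame v : K) := hg v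
      change v.val ((c : K) * g) ≤ v.val (M.frame v : K)
      rw [h v, map_mul]
      exact mul_le_mul_right h2 _
  unfold h0
  rw [h1]
  exact (LinearEquiv.finrank_eq (Submodule.equivMapOfInjective _ hinj (H0 L))).symm

theorem degree_congr {L M : LineBundle K}
    (h : ∀ v : Point K, v.val (M.frame v : K) = v.val (L.frame v : K)) : M.degree = L.degree := by
  unfold LineBundle.degree
  refine finsum_congr fun v => ?_
  unfold Point.ord
  rw [h v]

theorem degree_scale (hK : IsCurve K) {L M : LineBundle K} (c : Kˣ)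
    (h : ∀ v : Point K, v.val (M.frame v : K) = v.val (c : K) * v.val (L.frame v : K)) :
    M.degree = L.degree := by
  have h1 : M.degree = (lmul (lprin hK c) L).degree := by
    refine degree_congr fun v => ?_
    change _ = v.val ((c * L.frame v : Kˣ) : K)
    rw [h v, Units.val_mul, map_mul]
  rw [h1, lmul_degree, lprin_degree, zero_add]

/-- the twist of a line bundle by a principal divisor -/
noncomputable def lsc (hK : IsCurve K) (c : Kˣ) (L : LineBundle K) : LineBundle K :=
  lmul (lprin hK c) L

theorem lsc_val (hK : IsCurve K) (c : Kˣ) (L : LineBundle K) (v : Point K) :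
    v.val ((lsc hK c L).frame v : K) = v.val (c : K) * v.val (L.frame v : K) := by
  change v.val ((c * L.frame v : Kˣ) : K) = _
  rw [Units.val_mul, map_mul]

/-- greatest common divisor -/
noncomputable def lgcd (L M : LineBundle K) : LineBundle K := by
  classical
  exact
  { frame := fun v => if v.val (L.frame v : K) ≤ v.val (M.frame v : K) then L.frame v else M.frame v
    finite := (L.finite.union M.finite).subset fun v hv => by
      by_contra hcon
      simp only [Set.mem_union, Set.mem_ofPred_eq, not_or, not_not] at hcon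
      apply hv
      split_ifs
      · exact hcon.1
      · exact hcon.2 }

/-- least common multiple -/
noncomputable def llcm (L M : LineBundle K) : LineBundle K := by
  classical
  exact
  { frame := fun v => if v.val (L.frame v : K) ≤ v.val (M.frame v : K) then M.frame v else L.frame v
    finite := (L.finite.union M.finite).subset fun v hv => by
      by_contra hcon
      simp only [Set.mem_union, Set.mem_ofPred_eq, not_or, not_not] at hcon
      apply hv
      split_ifs
      · exact hcon.2
      · exact hcon.1 }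

theorem lgcd_val (L M : LineBundle K) (v : Point K) :
    v.val ((lgcd L M).frame v : K) = min (v.val (L.frame v : K)) (v.val (M.frame v : K)) := by
  classical
  change v.val ((if v.val (L.frame v : K) ≤ v.val (M.frame v : K) then L.frame v
    else M.frame v : Kˣ) : K) = _
  split_ifs with h
  · rw [min_eq_left h]
  · rw [min_eq_right (not_le.1 h).le]

theorem llcm_val (L M : LineBundle K) (v : Point K) :
    v.val ((llcm L M).frame v : K) = max (v.val (L.frame v : K)) (v.val (M.frame v : K)) := by
  classical
  change v.val ((if v.val (L.frame v : K) ≤ v.val (M.frame v : K) then M.frame v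
    else L.frame v : Kˣ) : K) = _
  split_ifs with h
  · rw [max_eq_right h]
  · rw [max_eq_left (not_le.1 h).le]

theorem gcd_mul_lcm_val (L M : LineBundle K) (v : Point K) :
    v.val ((lgcd L M).frame v : K) * v.val ((llcm L M).frame v : K) =
      v.val (L.frame v : K) * v.val (M.frame v : K) := by
  rw [lgcd_val, llcm_val, min_mul_max]

theorem degree_gcd_add_lcm (L M : LineBundle K) :
    (lgcd L M).degree + (llcm L M).degree = L.degree + M.degree := by
  rw [← lmul_degree, ← lmul_degree]
  refine degree_congr fun v => ?_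
  change v.val (((lgcd L M).frame v * (llcm L M).frame v : Kˣ) : K) =
    v.val ((L.frame v * M.frame v : Kˣ) : K)
  rw [Units.val_mul, Units.val_mul, map_mul, map_mul, gcd_mul_lcm_val]

theorem h0_gcd_add_lcm (hK : IsCurve K) (hg : genus K ≠ 0) (L M : LineBundle K) :
    h0 L + h0 M ≤ h0 (lgcd L M) + h0 (llcm L M) := by
  have f1 := H0_finite hK hg L
  have f2 := H0_finite hK hg M
  have f3 := H0_finite hK hg (llcm L M)
  have e1 : H0 L ⊓ H0 M = H0 (lgcd L M) := by
    ext f
    rw [Submodule.mem_inf, mem_H0, mem_H0, mem_H0]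
    constructor
    · rintro ⟨h1, h2⟩ v
      rw [lgcd_val]
      exact le_min (h1 v) (h2 v)
    · intro h
      exact ⟨fun v => (by have := h v; rw [lgcd_val] at this; exact this.trans (min_le_left _ _)),
        fun v => (by have := h v; rw [lgcd_val] at this; exact this.trans (min_le_right _ _))⟩
  have e2 : H0 L ⊔ H0 M ≤ H0 (llcm L M) := by
    refine sup_le ?_ ?_
    · intro f hf v
      change v.val f ≤ v.val ((llcm L M).frame v : K)
      rw [llcm_val]
      exact (hf v : v.val f ≤ _).trans (le_max_left _ _)
    · intro f hf v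
      change v.val f ≤ v.val ((llcm L M).frame v : K)
      rw [llcm_val]
      exact (hf v : v.val f ≤ _).trans (le_max_right _ _)
  have h1 := Submodule.finrank_sup_add_finrank_inf_eq (H0 L) (H0 M)
  have h2 := Submodule.finrank_mono e2
  rw [e1] at h1
  unfold h0
  omega

/-- the Serre dual `Ω ⊗ L⁻¹` -/
noncomputable def kd (hK : IsCurve K) (hg : genus K ≠ 0) (L : LineBundle K) : LineBundle K :=
  lmul (can hK hg) (linv L)

theorem kd_val (hK : IsCurve K) (hg : genus K ≠ 0) (L : LineBundle K) (v : Point K) :
    v.val ((kd hK hg L).frame v : K) * v.val (L.frame v : K) =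
      v.val ((can hK hg).frame v : K) := by
  change v.val (((can hK hg).frame v * (L.frame v)⁻¹ : Kˣ) : K) * v.val (L.frame v : K) = _
  rw [← map_mul, ← Units.val_mul, inv_mul_cancel_right]

theorem kd_degree (hK : IsCurve K) (hg : genus K ≠ 0) (L : LineBundle K) :
    (kd hK hg L).degree = 2 * genus K - 2 - L.degree := by
  rw [kd, lmul_degree, linv_degree, can_degree]
  ring

theorem rr' (hK : IsCurve K) (hg : genus K ≠ 0) (L : LineBundle K) :
    (h0 L : ℤ) - h0 (kd hK hg L) = L.degree + 1 - genus K := (rrL hK hg L).2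

theorem h0_mono (hK : IsCurve K) (hg : genus K ≠ 0) {L M : LineBundle K}
    (h : ∀ v : Point K, v.val (L.frame v : K) ≤ v.val (M.frame v : K)) : h0 L ≤ h0 M := by
  have f1 := H0_finite hK hg M
  refine Submodule.finrank_mono ?_
  intro f hf v
  exact (hf v : v.val f ≤ _).trans (h v)

theorem lsub_val_le (L : LineBundle K) (v w : Point K) :
    w.val ((lsub L v).frame w : K) ≤ w.val (L.frame w : K) := by
  by_contra hcon
  push Not at hcon
  rcases eq_or_ne w v with rfl | hw
  · have h1 : ((lsub L w).frame w : K) ∈ (lsub L w).stalk w := le_refl (w.val ((lsub L w).frame w : K))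
    rw [mem_lsub_self] at h1
    exact lt_asymm h1 hcon
  · have h1 : ((lsub L v).frame w : K) ∈ (lsub L v).stalk w := le_refl (w.val ((lsub L v).frame w : K))
    rw [mem_lsub_ne L hw] at h1
    exact absurd (h1 : w.val _ ≤ _) (not_le.2 hcon)

/-- dropping a point -/
theorem h0_le_lsub (hK : IsCurve K) (hg : genus K ≠ 0) (L : LineBundle K) (v : Point K) :
    h0 L ≤ h0 (lsub L v) + 1 := by
  have h1 := rr' hK hg L
  have h2 := rr' hK hg (lsub L v)
  rw [lsub_degree] at h2
  have h3 : h0 (kd hK hg L) ≤ h0 (kd hK hg (lsub L v)) := by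
    refine h0_mono hK hg fun w => ?_
    have h4 := kd_val hK hg L w
    have h5 := kd_val hK hg (lsub L v) w
    have h6 := lsub_val_le L v w
    have h7 : 0 < w.val ((lsub L v).frame w : K) := frame_pos _ w
    have h8 : w.val ((kd hK hg L).frame w : K) * w.val ((lsub L v).frame w : K) ≤
        w.val ((kd hK hg (lsub L v)).frame w : K) * w.val ((lsub L v).frame w : K) := by
      rw [h5, ← h4]
      exact mul_le_mul_right h6 _
    exact (mul_le_mul_iff_of_pos_right h7).1 h8
  omega

/-- curves have infinitely many points -/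
theorem infinite_point (hK : IsCurve K) : Infinite (Point K) := by
  obtain ⟨x, hx⟩ := exists_transc hK
  choose p hp using fun a : ℂ => exists_point hK hx a
  refine Infinite.of_injective p fun a b hab => ?_
  have h1 := hp a
  rw [hab] at h1
  exact point_injective h1 (hp b)

theorem exists_ne_zero_of_h0 {L : LineBundle K} (h : 1 ≤ h0 L) : ∃ f : K, f ≠ 0 ∧ f ∈ H0 L := by
  have hpos : 0 < Module.finrank ℂ (H0 L) := h
  have := Module.nontrivial_of_finrank_pos hpos
  obtain ⟨⟨f, hf⟩, hne⟩ := exists_ne (0 : H0 L)
  exact ⟨f, fun h0' => hne (Subtype.ext h0'), hf⟩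

/-- a bundle of positive degree containing `𝒪` -/
theorem exists_pole (hK : IsCurve K) {L : LineBundle K} (h : ∀ v : Point K, 1 ≤ v.val (L.frame v : K))
    (hd : 1 ≤ L.degree) : ∃ v : Point K, 1 < v.val (L.frame v : K) := by
  by_contra hcon
  push Not at hcon
  have h1 : L.degree = (one K).degree := by
    refine degree_congr fun v => ?_
    change _ = v.val ((1 : Kˣ) : K)
    rw [Units.val_one, map_one]
    exact le_antisymm (hcon v) (h v)
  rw [one_degree] at h1
  omega

/-- a bundle containing `𝒪` with a pole has positive degree -/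
theorem degree_lt_of_val (hK : IsCurve K) {L M : LineBundle K}
    (h : ∀ v : Point K, v.val (L.frame v : K) ≤ v.val (M.frame v : K)) (q : Point K)
    (hq : q.val (L.frame q : K) < q.val (M.frame q : K)) : L.degree < M.degree := by
  have h1 : L.degree ≤ M.degree := ldegree_le hK fun v s hs => (hs : v.val s ≤ _).trans (h v)
  rcases h1.lt_or_eq with h2 | h2
  · exact h2
  · exfalso
    have h3 := lstalk_eq_of_degree_eq hK (L := L) (M := M)
      (fun v s hs => (hs : v.val s ≤ _).trans (h v)) h2 q
    have h4 : (M.frame q : K) ∈ M.stalk q := le_refl (q.val (M.frame q : K))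
    rw [← h3] at h4
    exact absurd (h4 : q.val _ ≤ _) (not_le.2 hq)

/-- **The step in Clifford's theorem.** -/
theorem clifford_step (hK : IsCurve K) (hg : genus K ≠ 0) (L : LineBundle K) (h3 : 3 ≤ h0 L)
    (hM : 1 ≤ h0 (kd hK hg L)) (hMd : 1 ≤ (kd hK hg L).degree) :
    ∃ F : LineBundle K, 1 ≤ F.degree ∧ F.degree < L.degree ∧
      2 * (h0 L : ℤ) - L.degree ≤ 2 * (h0 F : ℤ) - F.degree := by
  obtain ⟨h, hh0, hh⟩ := exists_ne_zero_of_h0 hM
  set M := kd hK hg L with hMdef
  set M1 := lsc hK (Units.mk0 h hh0)⁻¹ M with hM1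
  have hM1v : ∀ v : Point K, v.val (M1.frame v : K) = (v.val h)⁻¹ * v.val (M.frame v : K) := by
    intro v
    rw [hM1, lsc_val, Units.val_inv_eq_inv_val, map_inv₀, Units.val_mk0]
  have hM1ge : ∀ v : Point K, 1 ≤ v.val (M1.frame v : K) := by
    intro v
    rw [hM1v]
    have h1 : 0 < v.val h := zero_lt_iff.2 (v.val_ne_zero hh0)
    exact (one_le_inv_mul₀ h1).2 (hh v)
  have hM1d : M1.degree = M.degree := by
    rw [hM1]
    exact degree_scale hK _ (lsc_val hK _ M)
  obtain ⟨p, hp⟩ := exists_pole hK hM1ge (by omega)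
  have hinf := infinite_point hK
  obtain ⟨q, hq⟩ := M1.finite.exists_notMem
  have hq1 : q.val (M1.frame q : K) = 1 := by
    by_contra hcon
    exact hq hcon
  have hpq : p ≠ q := by
    rintro rfl
    rw [hq1] at hp
    exact lt_irrefl _ hp
  -- a section vanishing at `p` and `q`
  have h4 : 1 ≤ h0 (lsub (lsub L p) q) := by
    have h5 := h0_le_lsub hK hg L p
    have h6 := h0_le_lsub hK hg (lsub L p) q
    omega
  obtain ⟨f, hf0, hf⟩ := exists_ne_zero_of_h0 h4
  have hfL : f ∈ H0 L := by
    intro v
    exact (hf v : v.val f ≤ _).trans ((lsub_val_le _ q v).trans (lsub_val_le L p v))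
  have hfp : p.val f < p.val (L.frame p : K) := by
    have h7 : f ∈ (lsub L p).stalk p := (mem_lsub_ne (lsub L p) hpq f).1 (hf p)
    exact (mem_lsub_self L p f).1 h7
  have hfq : q.val f < q.val (L.frame q : K) := by
    have h7 := (mem_lsub_self (lsub L p) q f).1 (hf q)
    exact h7.trans_le (lsub_val_le L p q)
  set L1 := lsc hK (Units.mk0 f hf0)⁻¹ L with hL1
  have hL1v : ∀ v : Point K, v.val (L1.frame v : K) = (v.val f)⁻¹ * v.val (L.frame v : K) := by
    intro v
    rw [hL1, lsc_val, Units.val_inv_eq_inv_val, map_inv₀, Units.val_mk0]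
  have hfpos : ∀ v : Point K, 0 < v.val f := fun v => zero_lt_iff.2 (v.val_ne_zero hf0)
  have hL1ge : ∀ v : Point K, 1 ≤ v.val (L1.frame v : K) := by
    intro v
    rw [hL1v]
    exact (one_le_inv_mul₀ (hfpos v)).2 (hfL v)
  have hL1p : 1 < p.val (L1.frame p : K) := by
    rw [hL1v]
    exact (one_lt_inv_mul₀ (hfpos p)).2 hfp
  have hL1q : 1 < q.val (L1.frame q : K) := by
    rw [hL1v]
    exact (one_lt_inv_mul₀ (hfpos q)).2 hfq
  have hL1d : L1.degree = L.degree := by
    rw [hL1]
    exact degree_scale hK _ (lsc_val hK _ L)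
  have hh1 : h0 L1 = h0 L := by
    rw [hL1]
    exact h0_scale _ (lsc_val hK _ L)
  have hh2 : h0 M1 = h0 M := by
    rw [hM1]
    exact h0_scale _ (lsc_val hK _ M)
  refine ⟨lgcd L1 M1, ?_, ?_, ?_⟩
  · have h8 : (one K).degree < (lgcd L1 M1).degree := by
      refine degree_lt_of_val hK (fun v => ?_) p ?_
      · change v.val ((1 : Kˣ) : K) ≤ _
        rw [Units.val_one, map_one, lgcd_val]
        exact le_min (hL1ge v) (hM1ge v)
      · change p.val ((1 : Kˣ) : K) < _
        rw [Units.val_one, map_one, lgcd_val]
        exact lt_min hL1p hp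
    rw [one_degree] at h8
    omega
  · rw [← hL1d]
    refine degree_lt_of_val hK (fun v => ?_) q ?_
    · rw [lgcd_val]
      exact min_le_left _ _
    · rw [lgcd_val, hq1]
      exact (min_le_right _ _).trans_lt hL1q
  · have h9 := h0_gcd_add_lcm hK hg L1 M1
    -- the least common multiple is `Ω ⊗ F⁻¹` up to a principal divisor
    have h10 : h0 (llcm L1 M1) = h0 (kd hK hg (lgcd L1 M1)) := by
      refine h0_scale ((Units.mk0 f hf0) * (Units.mk0 h hh0))⁻¹ fun v => ?_
      have e1 := gcd_mul_lcm_val L1 M1 v
      have e2 := kd_val hK hg (lgcd L1 M1) v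
      have e3 := kd_val hK hg L v
      have e4 : v.val (L1.frame v : K) * v.val (M1.frame v : K) =
          (v.val f)⁻¹ * (v.val h)⁻¹ * v.val ((can hK hg).frame v : K) := by
        rw [hL1v, hM1v, ← e3, hMdef, mul_mul_mul_comm, mul_comm (v.val (L.frame v : K))]
      have e5 : 0 < v.val ((lgcd L1 M1).frame v : K) := frame_pos _ v
      have e6 : v.val (((Units.mk0 f hf0) * (Units.mk0 h hh0))⁻¹ : Kˣ) =
          (v.val f)⁻¹ * (v.val h)⁻¹ := by
        rw [Units.val_inv_eq_inv_val, map_inv₀, Units.val_mul, map_mul, Units.val_mk0,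
          Units.val_mk0, mul_inv]
      rw [e6]
      apply mul_left_cancel₀ e5.ne'
      rw [e1, e4, ← e2, ← mul_assoc, mul_comm]
    have h11 := rr' hK hg L
    have h12 := rr' hK hg (lgcd L1 M1)
    rw [h10, hh1, hh2] at h9
    rw [← hMdef] at h11
    omega

/-- **Equality in Clifford's theorem.** A line bundle of degree `n`, `1 ≤ n ≤ g - 1`, with at least
`n / 2 + 1` sections exists only on curves with a line bundle of degree two with two sections. -/
theorem clifford_eq (hK : IsCurve K) (hg : genus K ≠ 0) : ∀ (N : ℕ) (L : LineBundle K),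
    L.degree = N → 1 ≤ N → N + 1 ≤ genus K → N + 2 ≤ 2 * h0 L →
    ∃ A : LineBundle K, A.degree = 2 ∧ 2 ≤ h0 A := by
  intro N
  induction N using Nat.strong_induction_on with
  | _ N ih =>
    intro L hL h1 hN hh
    rcases Nat.lt_or_ge N 3 with h | h
    · obtain ⟨v⟩ := point_nonempty hK
      have hcase : N = 1 ∨ N = 2 := by omega
      rcases hcase with rfl | rfl
      · refine ⟨lmul L (lpt v), by rw [lmul_degree, lpt_degree, hL]; norm_num, ?_⟩
        have h2 : h0 L ≤ h0 (lmul L (lpt v)) := by
          have f1 := H0_finite hK hg (lmul L (lpt v))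
          exact Submodule.finrank_mono (H0_mono (le_lmul_lpt L v))
        omega
      · exact ⟨L, hL, by omega⟩
    · have h11 := rr' hK hg L
      have hkd := kd_degree hK hg L
      obtain ⟨F, hF1, hF2, hF3⟩ := clifford_step hK hg L (by omega) (by omega) (by omega)
      obtain ⟨m, hm⟩ := Int.eq_ofNat_of_zero_le (by omega : 0 ≤ F.degree)
      exact ih m (by omega) F hm (by omega) (by omega) (by omega)

end Pool.Agent.Y207.BN
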