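import Pool.Agent.Y207.BN.Loci

/-!
# Linear series composed with a covering
-/

set_option autoImplicit false
set_option linter.unusedSectionVars false

open scoped WithZero Polynomial IntermediateField
open WithZero

namespace Pool.Agent.Y207.BN

open Pool.Agent.Helper395.CS hiding genus
open Pool.Agent.Helper395.BC
open Pool.Agent.W518.PC (lpow)

variable {K : Type} [Field K] [Algebra ℂ K]

/-- a generator of `F`, as an element of `F` -/
theorem transcendental_sub {F : IntermediateField ℂ K} {t : K} (htF : t ∈ F)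
    (ht : Transcendental ℂ t) : Transcendental ℂ (⟨t, htF⟩ : F) := by
  intro h
  exact ht ((isAlgebraic_algebraMap_iff (algebraMap F K).injective).2 h)

/-- `ℂ(t)` inside `F` and inside `K` -/
theorem adj_equiv (F : IntermediateField ℂ K) {t : K} (htF : t ∈ F) :
    ∃ e : ℂ⟮(⟨t, htF⟩ : F)⟯ ≃+* ℂ⟮t⟯, ∀ z, ((e z : ℂ⟮t⟯) : K) = ((z : F) : K) := by
  have h1 : IntermediateField.lift ℂ⟮(⟨t, htF⟩ : F)⟯ = ℂ⟮t⟯ := by
    rw [IntermediateField.lift_adjoin_simple]
  refine ⟨((IntermediateField.liftAlgEquiv ℂ⟮(⟨t, htF⟩ : F)⟯).trans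
    (IntermediateField.equivOfEq h1)).toRingEquiv, fun z => rfl⟩

theorem finrank_adj (F : IntermediateField ℂ K) {t : K} (htF : t ∈ F) :
    Module.finrank ℂ⟮(⟨t, htF⟩ : F)⟯ K = Module.finrank ℂ⟮t⟯ K := by
  obtain ⟨e, he⟩ := adj_equiv F htF
  refine Algebra.finrank_eq_of_equiv_equiv e (RingEquiv.refl K) ?_
  ext z
  exact he z

theorem isCurve_sub (hK : IsCurve K) (F : IntermediateField ℂ K) {t : K} (htF : t ∈ F)
    (ht : Transcendental ℂ t) : IsCurve F := by
  have hfd := hK.finiteDimensional ht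
  have hfr := finrank_adj F htF
  have hpos : 0 < Module.finrank ℂ⟮t⟯ K := Module.finrank_pos
  have hfd2 : FiniteDimensional ℂ⟮(⟨t, htF⟩ : F)⟯ K := FiniteDimensional.of_finrank_pos (by omega)
  have hfd3 : FiniteDimensional ℂ⟮(⟨t, htF⟩ : F)⟯ F :=
    FiniteDimensional.left ℂ⟮(⟨t, htF⟩ : F)⟯ F K
  have h1 : AlgebraicIndependent ℂ (fun _ : Unit => (⟨t, htF⟩ : F)) := by
    rw [algebraicIndependent_unique_type_iff]
    exact transcendental_sub htF ht
  refine ⟨?_, ?_⟩
  · rw [IntermediateField.fg_top_iff]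
    have h2 : Algebra.EssFiniteType ℂ ℂ⟮(⟨t, htF⟩ : F)⟯ := by
      rw [← IntermediateField.fg_top_iff]
      exact IntermediateField.fg_top_iff.2 (by
        rw [IntermediateField.essFiniteType_iff]
        exact ⟨{⟨t, htF⟩}, by simp⟩)
    exact Algebra.EssFiniteType.comp ℂ ℂ⟮(⟨t, htF⟩ : F)⟯ F
  · have h2 : AlgebraicIndependent ℂ (fun _ : Unit => t) := by
      rw [algebraicIndependent_unique_type_iff]
      exact ht
    have h4 : IsTranscendenceBasis ℂ (fun _ : Unit => t) := by
      apply h2.isTranscendenceBasis_of_trdeg_le_of_finite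
      rw [hK.trdeg]
      simp
    have h3 : IsTranscendenceBasis ℂ (fun _ : Unit => (⟨t, htF⟩ : F)) :=
      IsTranscendenceBasis.of_comp_algebraMap (A' := K) h4
    have := h3.cardinalMk_eq_trdeg
    simpa using this.symm

/-- the point of the subfield `F` below an unramified point -/
noncomputable def restr (F : IntermediateField ℂ K) (v : Point K)
    (h : ∃ s ∈ F, v.val s = exp (-1 : ℤ)) : Point F where
  val := v.val.comap (algebraMap F K)
  surj := by
    intro z
    obtain ⟨s, hs, hv⟩ := h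
    rcases eq_or_ne z 0 with rfl | hz
    · exact ⟨0, by simp⟩
    · refine ⟨(⟨s, hs⟩ : F) ^ (-log z), ?_⟩
      rw [map_zpow₀, Valuation.comap_apply]
      change v.val s ^ (-log z) = z
      rw [hv, ← exp_zsmul]
      simp [exp_log hz]
  const := by
    intro c hc
    rw [Valuation.comap_apply, ← IsScalarTower.algebraMap_apply]
    exact v.const c hc

theorem restr_ord (F : IntermediateField ℂ K) (v : Point K)
    (h : ∃ s ∈ F, v.val s = exp (-1 : ℤ)) (z : F) : (restr F v h).ord z = v.ord (z : K) := rfl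

theorem lt_one_le {z : ℤᵐ⁰} (hz : z < 1) : z ≤ exp (-1 : ℤ) := by
  rcases eq_or_ne z 0 with rfl | h0
  · exact zero_le
  · rw [← exp_log h0, ← exp_zero, exp_lt_exp] at hz
    rw [← exp_log h0, exp_le_exp]
    omega

/-- **A proper subfield has a fibre with two points.** -/
theorem exists_double (hK : IsCurve K) (F : IntermediateField ℂ K) {t : K} (htF : t ∈ F)
    (ht : Transcendental ℂ t) (hF : F ≠ ⊤) : ∃ v w : Point K,
      (w ≠ v ∧ ∀ s ∈ F, v.val s < 1 → w.val s < 1) ∨
        (w = v ∧ ∀ s ∈ F, v.val s < 1 → v.val s ≤ exp (-2 : ℤ)) := by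
  by_contra hcon
  push Not at hcon
  have hram : ∀ v : Point K, ∃ s ∈ F, v.val s = exp (-1 : ℤ) := by
    intro v
    obtain ⟨s, hs, h1, h2⟩ := (hcon v v).2 rfl
    refine ⟨s, hs, le_antisymm (lt_one_le h1) ?_⟩
    have h0 : v.val s ≠ 0 := by
      intro h
      rw [h] at h2
      exact not_lt_zero h2
    rw [← exp_log h0, exp_lt_exp] at h2
    rw [← exp_log h0, exp_le_exp]
    omega
  have hinj : Function.Injective (fun v => restr F v (hram v)) := by
    intro v w hvw
    by_contra hne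
    obtain ⟨s, hs, h1, h2⟩ := (hcon v w).1 (Ne.symm hne)
    have h3 : (restr F v (hram v)).val ⟨s, hs⟩ = (restr F w (hram w)).val ⟨s, hs⟩ := by
      rw [show restr F v (hram v) = restr F w (hram w) from hvw]
    change v.val s = w.val s at h3
    rw [h3] at h1
    exact absurd h1 (not_lt.2 h2)
  have hC := isCurve_sub hK F htF ht
  have htt := transcendental_sub htF ht
  obtain ⟨S, hS, hSsum⟩ := zero_count_aux hK ht
  obtain ⟨S', hS', hSsum'⟩ := zero_count_aux hC htt
  have h1 : (Module.finrank ℂ⟮t⟯ K : ℤ) ≤ Module.finrank ℂ⟮(⟨t, htF⟩ : F)⟯ F := by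
    rw [← hSsum, ← hSsum']
    have e1 : ∑ v ∈ S, v.ord t = ∑ w ∈ S.map ⟨_, hinj⟩, w.ord (⟨t, htF⟩ : F) := by
      rw [Finset.sum_map]
      exact Finset.sum_congr rfl fun v _ => rfl
    rw [e1]
    refine Finset.sum_le_sum_of_subset_of_nonneg ?_ ?_
    · intro w hw
      rw [Finset.mem_map] at hw
      obtain ⟨v, hv, rfl⟩ := hw
      rw [hS'] 
      exact (hS v).1 hv
    · intro w hw _
      rw [hS', w.val_lt_one_iff (ne_zero_of_transcendental htt)] at hw
      exact hw.le
  rw [← finrank_adj F htF] at h1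
  have hfd := hK.finiteDimensional ht
  have hpos : 0 < Module.finrank ℂ⟮t⟯ K := Module.finrank_pos
  have hfr := finrank_adj F htF
  have h2 := Module.finrank_mul_finrank ℂ⟮(⟨t, htF⟩ : F)⟯ F K
  have h3 : 0 < Module.finrank ℂ⟮(⟨t, htF⟩ : F)⟯ F := by
    rcases Nat.eq_zero_or_pos (Module.finrank ℂ⟮(⟨t, htF⟩ : F)⟯ F) with h | h
    · rw [h, zero_mul] at h2
      omega
    · exact h
  have h4 : Module.finrank F K = 1 := by
    have h5 : 0 < Module.finrank F K := by
      rcases Nat.eq_zero_or_pos (Module.finrank F K) with h | h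
      · rw [h, mul_zero] at h2
        omega
      · exact h
    have h6 : Module.finrank ℂ⟮(⟨t, htF⟩ : F)⟯ F * Module.finrank F K ≤
        Module.finrank ℂ⟮(⟨t, htF⟩ : F)⟯ F * 1 := by
      rw [h2, mul_one]
      exact_mod_cast h1
    have := Nat.le_of_mul_le_mul_left h6 h3
    omega
  exact hF (IntermediateField.finrank_eq_one_iff_eq_top.1 h4)

end Pool.Agent.Y207.BN
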