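import Pool.Agent.Y207.BN.Composite

/-!
# Linear series composed with a covering: dropping points, and a bound for the genus
-/

set_option autoImplicit false
set_option linter.unusedSectionVars false

open scoped WithZero Polynomial IntermediateField Pointwise
open WithZero

namespace Pool.Agent.Y207.BN

open Pool.Agent.Helper395.CS hiding genus
open Pool.Agent.Helper395.BC
open Pool.Agent.W518.PC (lpow)

variable {K : Type} [Field K] [Algebra ℂ K]

/-- a point imposes at most one condition -/
theorem finrank_le_inf (hK : IsCurve K) (hg : genus K ≠ 0) {L : LineBundle K} (v : Point K)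
    {V : Submodule ℂ K} (hV : V ≤ H0 L) :
    Module.finrank ℂ V ≤ Module.finrank ℂ (V ⊓ H0 (lsub L v) : Submodule ℂ K) + 1 := by
  have f1 := H0_finite hK hg L
  have f2 := H0_finite hK hg (lsub L v)
  have f3 : FiniteDimensional ℂ V := Submodule.finiteDimensional_of_le hV
  have h1 := Submodule.finrank_sup_add_finrank_inf_eq V (H0 (lsub L v))
  have h2 : V ⊔ H0 (lsub L v) ≤ H0 L := by
    refine sup_le hV fun f hf w => ?_
    exact (hf w : w.val f ≤ _).trans (lsub_val_le L v w)
  have h3 := Submodule.finrank_mono h2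
  have h4 := h0_le_lsub hK hg L v
  unfold h0 at h4
  omega

theorem lsub_frame_self (L : LineBundle K) (v : Point K) :
    exp (-1 : ℤ) * v.val (L.frame v : K) ≤ v.val ((lsub L v).frame v : K) := by
  have h1 : (unif v * (L.frame v : K)) ∈ (lsub L v).stalk v := by
    rw [mem_lsub_self, map_mul]
    exact mul_lt_of_lt_one_left (frame_pos L v) (val_unif_lt v)
  have h2 : v.val (unif v * (L.frame v : K)) ≤ v.val ((lsub L v).frame v : K) := h1
  rwa [map_mul, val_unif] at h2

/-- the fibre of a subfield with two points -/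
def Pair (F : IntermediateField ℂ K) (v w : Point K) : Prop :=
  (w ≠ v ∧ ∀ s ∈ F, v.val s < 1 → w.val s < 1) ∨
    (w = v ∧ ∀ s ∈ F, v.val s < 1 → v.val s ≤ exp (-2 : ℤ))

/-- **Dropping a point drops two points.** -/
theorem drop_two (hK : IsCurve K) (hg : genus K ≠ 0) {F : IntermediateField ℂ K} {v w : Point K}
    (hvw : Pair F v w) {L : LineBundle K} {V : Submodule ℂ K} (hV : V ≤ H0 L)
    (hr : ∀ a ∈ V, ∀ b ∈ V, b ≠ 0 → a / b ∈ F) :
    ∃ (M : LineBundle K) (V' : Submodule ℂ K), M.degree = L.degree - 2 ∧ V' ≤ V ∧ V' ≤ H0 M ∧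
      Module.finrank ℂ V ≤ Module.finrank ℂ V' + 1 := by
  by_cases hb : V ≤ H0 (lsub L v)
  · refine ⟨lsub (lsub L v) w, V ⊓ H0 (lsub (lsub L v) w), ?_, inf_le_left, inf_le_right,
      finrank_le_inf hK hg w hb⟩
    rw [lsub_degree, lsub_degree]
    ring
  · refine ⟨lsub (lsub L v) w, V ⊓ H0 (lsub L v), ?_, inf_le_left, ?_, finrank_le_inf hK hg v hV⟩
    · rw [lsub_degree, lsub_degree]
      ring
    · obtain ⟨s, hs, hsn⟩ := Set.not_subset.1 hb
      have hsL : s ∈ H0 L := hV hs
      have hsv : v.val (L.frame v : K) ≤ v.val s := by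
        by_contra hcon
        push Not at hcon
        refine hsn fun u => ?_
        rcases eq_or_ne u v with rfl | hu
        · exact (mem_lsub_self L u s).2 hcon
        · exact (mem_lsub_ne L hu s).2 (hsL u)
      have hs0 : s ≠ 0 := by
        rintro rfl
        rw [map_zero] at hsv
        exact absurd (frame_pos L v) (not_lt.2 hsv)
      rintro f ⟨hfV, hfL⟩ u
      have hfv : v.val f < v.val (L.frame v : K) := (mem_lsub_self L v f).1 (hfL v)
      have hq : v.val (f / s) < 1 := by
        rw [map_div₀]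
        exact (div_lt_one₀ (zero_lt_iff.2 (v.val_ne_zero hs0))).2 (hfv.trans_le hsv)
      have hqF : f / s ∈ F := hr f hfV s hs hs0
      have hfs : f = f / s * s := (div_mul_cancel₀ f hs0).symm
      rcases eq_or_ne u w with rfl | huw
      · rw [mem_lsub_self]
        rcases hvw with ⟨hne, h⟩ | ⟨rfl, h⟩
        · have h1 : (lsub L v).stalk u = L.stalk u := Set.ext (mem_lsub_ne L hne)
          have h2 : u.val (L.frame u : K) ≤ u.val ((lsub L v).frame u : K) := by
            have h3 : (L.frame u : K) ∈ L.stalk u := le_refl (u.val (L.frame u : K))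
            rw [← h1] at h3
            exact h3
          refine lt_of_lt_of_le ?_ h2
          rw [hfs, map_mul]
          exact (mul_lt_of_lt_one_left (zero_lt_iff.2 (u.val_ne_zero hs0))
            (h _ hqF hq)).trans_le (hsL u)
        · refine lt_of_lt_of_le ?_ (lsub_frame_self L u)
          rw [hfs, map_mul]
          have h1 : u.val (f / s) * u.val s ≤ exp (-2 : ℤ) * u.val (L.frame u : K) :=
            mul_le_mul' (h _ hqF hq) (hsL u)
          refine h1.trans_lt ?_
          exact (mul_lt_mul_iff_of_pos_right (frame_pos L u)).2 (by rw [exp_lt_exp]; norm_num)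
      · rw [mem_lsub_ne _ huw]
        exact hfL u

/-- dropping `n` points of the image -/
theorem drop_many (hK : IsCurve K) (hg : genus K ≠ 0) {F : IntermediateField ℂ K} {v w : Point K}
    (hvw : Pair F v w) (n : ℕ) : ∀ {L : LineBundle K} {V : Submodule ℂ K}, V ≤ H0 L →
    (∀ a ∈ V, ∀ b ∈ V, b ≠ 0 → a / b ∈ F) →
    ∃ (M : LineBundle K) (V' : Submodule ℂ K), M.degree = L.degree - 2 * n ∧ V' ≤ H0 M ∧
      Module.finrank ℂ V ≤ Module.finrank ℂ V' + n := by
  induction n with
  | zero => 
    intro L V hV _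
    exact ⟨L, V, by simp, hV, by simp⟩
  | succ n ih =>
    intro L V hV hr
    obtain ⟨M, V', h1, h2, h3, h4⟩ := drop_two hK hg hvw hV hr
    obtain ⟨M', V'', h5, h6, h7⟩ := ih h3 (fun a ha b hb => hr a (h2 ha) b (h2 hb))
    refine ⟨M', V'', ?_, h6, by omega⟩
    rw [h5, h1]
    push_cast
    ring

/-- the divisor of poles -/
noncomputable def polb (hK : IsCurve K) (x : Kˣ) : LineBundle K := llcm (one K) (lprin hK x)

theorem polb_val (hK : IsCurve K) (x : Kˣ) (v : Point K) :
    v.val ((polb hK x).frame v : K) = max 1 (v.val (x : K)) := by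
  rw [polb, llcm_val]
  change max (v.val ((1 : Kˣ) : K)) (v.val (x : K)) = _
  rw [Units.val_one, map_one]

theorem polb_degree (hK : IsCurve K) (x : Kˣ) : (polb hK x).degree = degP (x : K) := by
  unfold LineBundle.degree degP
  refine finsum_congr fun v => ?_
  have h1 := polb_val hK x v
  rw [Point.ord, neg_neg, h1]
  rcases le_total (v.val (x : K)) 1 with h | h
  · rw [max_eq_left h, log_one, max_eq_right]
    have := v.ord_nonneg_of_val_le h
    omega
  · rw [max_eq_right h, Point.ord, neg_neg, max_eq_left]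
    rw [← log_one (M := ℤ)]
    exact (log_le_log (by simp) (v.val_ne_zero x.ne_zero)).2 h

section Powers

variable {E A : Type} [Field E] [Field A] [Algebra E A]

theorem pow_step (T : Set A) (h1 : (1 : A) ∈ T) (hgen : Algebra.adjoin E T = ⊤) (j : ℕ)
    (h : Submodule.span E T ^ (j + 1) = Submodule.span E T ^ j) :
    Submodule.span E T ^ j = ⊤ := by
  set S := Submodule.span E T with hS
  have hone : (1 : Submodule E A) ≤ S := by
    rw [Submodule.one_le]
    exact Submodule.subset_span h1
  have hall : ∀ m : ℕ, S ^ j * S ^ m = S ^ j := by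
    intro m
    induction m with
    | zero => rw [pow_zero, mul_one]
    | succ m ih => rw [pow_succ, ← mul_assoc, ih, ← pow_succ, h]
  have hj1 : (1 : Submodule E A) ≤ S ^ j := by
    have := pow_le_pow_left' hone j
    rwa [one_pow] at this
  have hmul : S ^ j * S ^ j = S ^ j := hall j
  rw [eq_top_iff]
  rintro z -
  have hz : z ∈ Algebra.adjoin E T := by rw [hgen]; exact Algebra.mem_top
  induction hz using Algebra.adjoin_induction with
  | mem x hx =>
    have h2 : S ≤ S ^ j := by
      calc S = 1 * S := (one_mul S).symm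
        _ ≤ S ^ j * S := mul_le_mul' hj1 le_rfl
        _ = S ^ j := by rw [← pow_succ, h]
    exact h2 (Submodule.subset_span hx)
  | algebraMap r => 
    apply hj1
    exact Submodule.algebraMap_mem r
  | add x y _ _ hx hy => exact add_mem hx hy
  | mul x y _ _ hx hy => 
    rw [← hmul]
    exact Submodule.mul_mem_mul hx hy

theorem pow_rank [FiniteDimensional E A] (T : Set A) (h1 : (1 : A) ∈ T)
    (hgen : Algebra.adjoin E T = ⊤) (j : ℕ) :
    Submodule.span E T ^ j = ⊤ ∨ j + 1 ≤ Module.finrank E (Submodule.span E T ^ j : Submodule E A) := by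
  have hone : (1 : Submodule E A) ≤ Submodule.span E T := by
    rw [Submodule.one_le]
    exact Submodule.subset_span h1
  induction j with
  | zero =>
    right
    rw [pow_zero, zero_add, Nat.one_le_iff_ne_zero]
    intro h
    rw [Submodule.finrank_eq_zero] at h
    have : (1 : A) ∈ (1 : Submodule E A) := Submodule.one_le.1 le_rfl
    rw [h, Submodule.mem_bot] at this
    exact one_ne_zero this
  | succ j ih =>
    by_cases htop : Submodule.span E T ^ (j + 1) = ⊤
    · exact Or.inl htop
    · right
      have hle : Submodule.span E T ^ j ≤ Submodule.span E T ^ (j + 1) := by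
        rw [pow_succ]
        calc Submodule.span E T ^ j = Submodule.span E T ^ j * 1 := (mul_one _).symm
          _ ≤ _ := mul_le_mul' le_rfl hone
      have hne : Submodule.span E T ^ j ≠ Submodule.span E T ^ (j + 1) := by
        intro heq
        apply htop
        rw [← heq]
        exact pow_step T h1 hgen j heq.symm
      have hlt := Submodule.finrank_lt_finrank_of_lt (lt_of_le_of_ne hle hne)
      rcases ih with ih | ih
      · exfalso
        apply htop
        rw [eq_top_iff, ← ih]
        exact hle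
      · omega

/-- products of fewer than `[A : E]` generators span `A` -/
theorem pow_top [FiniteDimensional E A] (T : Set A) (h1 : (1 : A) ∈ T)
    (hgen : Algebra.adjoin E T = ⊤) :
    Submodule.span E (T ^ (Module.finrank E A - 1)) = ⊤ := by
  rw [← Submodule.span_pow]
  have hpos : 0 < Module.finrank E A := Module.finrank_pos
  rcases pow_rank T h1 hgen (Module.finrank E A - 1) with h | h
  · exact h
  · refine Submodule.eq_top_of_finrank_eq (le_antisymm (Submodule.finrank_le _) ?_)
    omega

end Powers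

theorem mem_H0_pow {L : LineBundle K} {T : Set K} (hT : ∀ z ∈ T, z ∈ H0 L) (m : ℕ) :
    ∀ z ∈ T ^ m, z ∈ H0 (lpow L m) := by
  induction m with
  | zero =>
    intro z hz v
    rw [pow_zero, Set.mem_one] at hz
    change v.val z ≤ _
    rw [hz, map_one, lpow_val, pow_zero]
  | succ m ih =>
    intro z hz v
    rw [pow_succ, Set.mem_mul] at hz
    obtain ⟨a, ha, b, hb, rfl⟩ := hz
    change v.val (a * b) ≤ _
    rw [map_mul, lpow_val, pow_succ]
    have h1 : v.val a ≤ v.val ((lpow L m).frame v : K) := ih a ha v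
    rw [lpow_val] at h1
    exact mul_le_mul' h1 (hT b hb v)

/-- **A genus bound.** If functions in `T ⊆ H⁰(L)` (with `1 ∈ T`) generate the function field then
`g ≤ (deg L - 1)²`. -/
theorem genus_bound (hK : IsCurve K) (hg : genus K ≠ 0) {L : LineBundle K} {d : ℕ}
    (hd : L.degree = d) {T : Set K} (hT : ∀ z ∈ T, z ∈ H0 L) (h1 : (1 : K) ∈ T) {x : K} (hx : x ∈ T)
    (htr : Transcendental ℂ x) (hgen : IntermediateField.adjoin ℂ T = ⊤) :
    genus K ≤ (d - 1) * (d - 1) := by
  have hfd := hK.finiteDimensional htr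
  set n := Module.finrank ℂ⟮x⟯ K with hn
  have hnpos : 0 < n := Module.finrank_pos
  have hx0 := ne_zero_of_transcendental htr
  -- the degree of `x`
  have hpd : (polb hK (Units.mk0 x hx0)).degree = n := by
    rw [polb_degree, Units.val_mk0, ← degZ_eq_degP hK, degZ_eq hK htr]
  have hnd : n ≤ d := by
    have h2 : (polb hK (Units.mk0 x hx0)).degree ≤ L.degree := by
      refine ldegree_le hK fun v s hs => ?_
      have h3 : v.val s ≤ v.val ((polb hK (Units.mk0 x hx0)).frame v : K) := hs
      rw [polb_val, Units.val_mk0] at h3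
      refine h3.trans (max_le ?_ (hT x hx v))
      have h4 : v.val (1 : K) ≤ v.val (L.frame v : K) := hT 1 h1 v
      rwa [map_one] at h4
    rw [hpd, hd] at h2
    exact_mod_cast h2
  -- generation over `ℂ(x)`
  have hgen1 : IntermediateField.adjoin ℂ⟮x⟯ T = ⊤ := by
    rw [eq_top_iff]
    have h2 : IntermediateField.adjoin ℂ T ≤
        (IntermediateField.adjoin ℂ⟮x⟯ T).restrictScalars ℂ := by
      rw [IntermediateField.adjoin_le_iff]
      exact IntermediateField.subset_adjoin _ _
    intro z _
    exact h2 (by rw [hgen]; exact IntermediateField.mem_top)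
  have hgen2 : Algebra.adjoin ℂ⟮x⟯ T = ⊤ := by
    rw [← IntermediateField.adjoin_toSubalgebra, hgen1]
    rfl
  have htop := pow_top (E := ℂ⟮x⟯) T h1 hgen2
  rw [← hn] at htop
  obtain ⟨b, hbT, hbs, hbl⟩ := exists_linearIndependent ℂ⟮x⟯ (T ^ (n - 1))
  rw [htop] at hbs
  have hbfin : Finite b := hbl.finite
  have hbft : Fintype b := Fintype.ofFinite b
  have hcard : Fintype.card b = n := by
    have h2 := finrank_span_set_eq_card (R := ℂ⟮x⟯) (s := b) hbl
    rw [hbs, finrank_top] at h2
    rw [← Set.toFinset_card, ← h2]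
  -- the sections `x ^ i m`
  have hxi : Transcendental ℂ (⟨x, IntermediateField.mem_adjoin_simple_self ℂ x⟩ : ℂ⟮x⟯) :=
    transcendental_sub _ htr
  set ξ : ℂ⟮x⟯ := ⟨x, IntermediateField.mem_adjoin_simple_self ℂ x⟩ with hξ
  set a : ℕ := 2 * genus K with ha
  have hli1 : LinearIndependent ℂ (fun i : Fin (a + 1) => ξ ^ (i : ℕ)) := by
    rw [Fintype.linearIndependent_iff]
    intro c hc i
    have h2 : pev ξ (a + 1) c = pev ξ (a + 1) 0 := by
      rw [map_zero, pev_apply]
      exact hc
    rw [pev_injective hxi (a + 1) h2]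
    rfl
  have hli := linearIndependent_smul hli1 hbl
  set M := lmul (lpow (polb hK (Units.mk0 x hx0)) a) (lpow L ((n - 1 : ℕ) : ℤ)) with hM
  have hmem : ∀ p : Fin (a + 1) × b, ξ ^ (p.1 : ℕ) • (p.2 : K) ∈ H0 M := by
    rintro ⟨i, m⟩ v
    change v.val (ξ ^ (i : ℕ) • (m : K)) ≤ v.val ((M.frame v : Kˣ) : K)
    have h2 : ξ ^ (i : ℕ) • (m : K) = x ^ (i : ℕ) * m := rfl
    rw [h2, map_mul, map_pow]
    have h3 : v.val ((M.frame v : Kˣ) : K) = v.val ((lpow (polb hK (Units.mk0 x hx0)) a).frame v : K) *
        v.val ((lpow L ((n - 1 : ℕ) : ℤ)).frame v : K) := by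
      change v.val (((lpow (polb hK (Units.mk0 x hx0)) a).frame v *
        (lpow L ((n - 1 : ℕ) : ℤ)).frame v : Kˣ) : K) = _
      rw [Units.val_mul, map_mul]
    rw [h3, lpow_val, polb_val, Units.val_mk0]
    refine mul_le_mul' ?_ (mem_H0_pow hT (n - 1) m (hbT m.2) v)
    have h4 : v.val x ^ (i : ℕ) ≤ max 1 (v.val x) ^ (i : ℕ) :=
      pow_le_pow_left₀ zero_le (le_max_right _ _) _
    exact h4.trans (pow_le_pow_right₀ (le_max_left _ _) (by omega))
  have hfin := H0_finite hK hg M
  have hli2 : LinearIndependent ℂ (fun p : Fin (a + 1) × b => (⟨_, hmem p⟩ : H0 M)) := by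
    refine LinearIndependent.of_comp (H0 M).subtype ?_
    exact hli
  have hcount := hli2.fintype_card_le_finrank
  rw [Fintype.card_prod, Fintype.card_fin, hcard] at hcount
  have hrr := rr' hK hg M
  have hMd : M.degree = a * n + (n - 1 : ℕ) * d := by
    rw [hM, lmul_degree, lpow_degree', lpow_degree', hpd, hd]
  have hkd0 : h0 (kd hK hg M) = 0 := by
    have h8 : (kd hK hg M).degree < 0 := by
      rw [kd_degree, hMd]
      have h9 : (a : ℤ) ≤ a * n := by nlinarith
      have h10 : (0 : ℤ) ≤ ((n - 1 : ℕ) : ℤ) * d := by positivity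
      omega
    unfold h0
    rw [H0_eq_bot hK h8]
    simp
  rw [hkd0, hMd] at hrr
  have hcount' : ((a : ℤ) + 1) * n ≤ h0 M := by
    unfold h0
    exact_mod_cast hcount
  clear_value n
  obtain ⟨n', rfl⟩ : ∃ n', n = n' + 1 := ⟨n - 1, by omega⟩
  obtain ⟨d', rfl⟩ : ∃ d', d = d' + 1 := ⟨d - 1, by omega⟩
  simp only [Nat.add_sub_cancel] at *
  push_cast at *
  have h11 : (genus K : ℤ) ≤ n' * d' := by nlinarith
  have h12 : n' * d' ≤ d' * d' := Nat.mul_le_mul_right _ (by omega)
  have h13 : genus K ≤ n' * d' := by exact_mod_cast h11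
  omega

/-- **A series on a curve of large genus is composed with a covering.** If `g > (d - 1)²` then a
`g^r_d` with `r ≥ 1` gives a `g^{r-n}_{d-2n}`. -/
theorem series_drop (hK : IsCurve K) {L : LineBundle K} {d r : ℕ} (hL : L.degree = d) (hr : 1 ≤ r)
    (h : r + 1 ≤ h0 L) (hg : (d - 1) * (d - 1) < genus K) (n : ℕ) :
    ∃ M : LineBundle K, M.degree = d - 2 * n ∧ r + 1 ≤ h0 M + n := by
  have hg0 : genus K ≠ 0 := by omega
  obtain ⟨a, b, ha, hb, ha0, ht⟩ := exists_pencil (A := L) (by omega)
  set T : Set K := {z | ∃ s ∈ H0 L, z = s / a} with hTdef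
  have h1 : (1 : K) ∈ T := ⟨a, ha, (div_self ha0).symm⟩
  have hx : b / a ∈ T := ⟨b, hb, rfl⟩
  set L1 := lsc hK (Units.mk0 a ha0)⁻¹ L with hL1
  have hL1v : ∀ v : Point K, v.val (L1.frame v : K) = (v.val a)⁻¹ * v.val (L.frame v : K) := by
    intro v
    rw [hL1, lsc_val, Units.val_inv_eq_inv_val, map_inv₀, Units.val_mk0]
  have hL1d : L1.degree = d := by
    rw [hL1, degree_scale hK _ (lsc_val hK _ L), hL]
  have hT : ∀ z ∈ T, z ∈ H0 L1 := by
    rintro z ⟨s, hs, rfl⟩ v
    change v.val (s / a) ≤ v.val (L1.frame v : K)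
    rw [hL1v, map_div₀, div_eq_mul_inv, mul_comm]
    exact mul_le_mul' le_rfl (hs v)
  have hne : IntermediateField.adjoin ℂ T ≠ ⊤ := by
    intro htop
    have := genus_bound hK hg0 hL1d hT h1 hx ht htop
    omega
  obtain ⟨v, w, hvw⟩ := exists_double hK (IntermediateField.adjoin ℂ T)
    (IntermediateField.subset_adjoin _ _ hx) ht hne
  obtain ⟨M, V', hM, hV', hrank⟩ := drop_many hK hg0 (F := IntermediateField.adjoin ℂ T)
    (v := v) (w := w) hvw n (L := L) (V := H0 L) le_rfl (by
      intro p hp q hq hq0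
      have e1 : p / q = (p / a) / (q / a) := by field_simp
      rw [e1]
      exact div_mem (IntermediateField.subset_adjoin _ _ ⟨p, hp, rfl⟩)
        (IntermediateField.subset_adjoin _ _ ⟨q, hq, rfl⟩))
  refine ⟨M, by rw [hM, hL], ?_⟩
  have f1 := H0_finite hK hg0 M
  have h2 := Submodule.finrank_mono hV'
  unfold h0 at h ⊢
  omega

end Pool.Agent.Y207.BN
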