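import Pool.Agent.Y207.BN.Model
import Pool.Agent.Y207.BN.Basic
import Pool.Agent.W518.EG.TGen

/-!
# The genus of the hyperelliptic curves `y² = x^(2g+2) + 1`
-/

set_option autoImplicit false
set_option linter.unusedSectionVars false

open scoped WithZero Polynomial IntermediateField
open WithZero

namespace Pool.Agent.Y207.BN

open Pool.Agent.Helper395.CS hiding genus
open Pool.Agent.Helper395.BC
open Pool.Agent.W518.PC (lpow)

variable {K : Type} [Field K] [Algebra ℂ K] {x y : K} {f : ℂ[X]} {ι : K ≃ₐ[ℂ] K}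

theorem degree_lineH' (H : Hyp x y f ι) (b : ℕ) :
    (lineH H.curve H.x_ne b).degree = 2 * b := by
  have h1 : ∀ v : Point K, -v.ord ((lineH H.curve H.x_ne b).frame v : K) =
      (b : ℤ) * max (-v.ord x) 0 := fun v => ord_dgen H.x_ne v b
  rw [LineBundle.degree, finsum_congr h1, ← mul_finsum]
  change (b : ℤ) * degP x = _
  rw [H.degP_x]
  ring

theorem val_y_inf' (H : Hyp x y f ι) {m : ℕ} (hf : f.natDegree = 2 * m) {v : Point K}
    (hv : 1 < v.val x) : v.val y = v.val x ^ m := by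
  have h1 : v.val (y ^ 2) = v.val x ^ (2 * m) := by
    rw [H.eq, val_aeval_inf hv f H.f_ne, hf]
  rw [map_pow] at h1
  have h2 : v.val x ^ (2 * m) = (v.val x ^ m) ^ 2 := by rw [← pow_mul, mul_comm]
  rw [h2] at h1
  exact (pow_left_inj₀ zero_le zero_le two_ne_zero).1 h1

theorem val_y_fin (H : Hyp x y f ι) {v : Point K} (hv : v.val x ≤ 1) : v.val y ≤ 1 := by
  have h1 : v.val (y ^ 2) ≤ 1 := by
    rw [H.eq]
    exact aeval_le hv f
  rw [map_pow] at h1
  exact (pow_le_one_iff_of_nonneg zero_le two_ne_zero).1 h1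

/-- the functions `p(x) + q(x) y` -/
noncomputable def pqy (x y : K) (a b : ℕ) : (Fin a → ℂ) × (Fin b → ℂ) →ₗ[ℂ] K :=
  LinearMap.coprod (pev x a) ((LinearMap.mulRight ℂ y).comp (pev x b))

theorem pqy_apply (a b : ℕ) (c : (Fin a → ℂ) × (Fin b → ℂ)) :
    pqy x y a b c = pev x a c.1 + pev x b c.2 * y := rfl

theorem pev_mem_adj (x : K) (a : ℕ) (c : Fin a → ℂ) : pev x a c ∈ ℂ⟮x⟯ := by
  rw [pev_eq_aeval]
  exact mem_adj _

theorem pqy_injective (H : Hyp x y f ι) (a b : ℕ) : Function.Injective (pqy x y a b) := by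
  rw [← LinearMap.ker_eq_bot, LinearMap.ker_eq_bot']
  rintro ⟨c, d⟩ hcd
  rw [pqy_apply] at hcd
  obtain ⟨h1, h2⟩ := H.coeff_zero (pev_mem_adj x a c) (pev_mem_adj x b d) hcd
  have h3 : c = 0 := pev_injective H.trans a (by rw [h1, map_zero])
  have h4 : d = 0 := pev_injective H.trans b (by rw [h2, map_zero])
  rw [h3, h4]
  rfl

/-- the sections of the multiples of the hyperelliptic pencil -/
theorem H0_lineH (H : Hyp x y f ι) {m : ℕ} (hf : f.natDegree = 2 * m) {b : ℕ} (hb : m ≤ b) :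
    H0 (lineH H.curve H.x_ne b) = LinearMap.range (pqy x y (b + 1) (b - m + 1)) := by
  ext z
  constructor
  · intro hz
    have hz' : ∀ v : Point K, v.val z ≤ v.val (dgen x v b) := hz
    obtain ⟨p, q, rfl⟩ := H.mem_ring (z := z) (fun v hv => by
      have := hz' v
      rwa [dgen_fin hv, map_one] at this)
    obtain ⟨v, hv⟩ := exists_inf H
    have h1 := H.parts_le rfl (mem_adj p) (mem_adj q) v (C := v.val x ^ b) (by
      have := hz' v
      rwa [dgen_inf hv, map_pow] at this) (by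
      have h2 : 1 < (v.comap ι).val x := by rw [H.comap_x]; exact hv
      have := hz' (v.comap ι)
      rwa [dgen_inf h2, map_pow, H.comap_x] at this)
    have hp : p.natDegree ≤ b := by
      rcases eq_or_ne p 0 with rfl | hp
      · simp
      have h4 := h1.1
      rwa [val_aeval_inf hv p hp, pow_le_pow_iff_right₀ hv] at h4
    have hq : q.natDegree ≤ b - m := by
      rcases eq_or_ne q 0 with rfl | hq
      · simp
      have h3 := h1.2
      rw [map_mul, val_aeval_inf hv q hq, val_y_inf' H hf hv, ← pow_add,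
        pow_le_pow_iff_right₀ hv] at h3
      omega
    refine ⟨(fun j => p.coeff j, fun j => q.coeff j), ?_⟩
    rw [pqy_apply]
    change pev x (b + 1) (fun j => p.coeff j) + pev x (b - m + 1) (fun j => q.coeff j) * y = _
    rw [pev_coeff x p hp, pev_coeff x q hq]
  · rintro ⟨c, rfl⟩ v
    change v.val (pqy x y (b + 1) (b - m + 1) c) ≤ v.val (dgen x v b)
    rw [pqy_apply]
    refine Valuation.map_add_le _ (pev_le v b c.1) ?_
    rw [map_mul]
    by_cases hv : v.val x ≤ 1
    · have h1 := pev_le (x := x) v (b - m) c.2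
      rw [dgen_fin hv, map_one] at h1 ⊢
      exact mul_le_one' h1 (val_y_fin H hv)
    · have hv' := not_le.1 hv
      have h1 := pev_le (x := x) v (b - m) c.2
      rw [dgen_inf hv', map_pow] at h1 ⊢
      rw [val_y_inf' H hf hv']
      refine (mul_le_mul_left h1 _).trans ?_
      rw [← pow_add, Nat.sub_add_cancel hb]

theorem finrank_lineH (H : Hyp x y f ι) {m : ℕ} (hf : f.natDegree = 2 * m) {b : ℕ} (hb : m ≤ b) :
    FiniteDimensional ℂ (H0 (lineH H.curve H.x_ne b)) ∧
    Module.finrank ℂ (H0 (lineH H.curve H.x_ne b)) = (b + 1) + (b - m + 1) := by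
  rw [H0_lineH H hf hb]
  refine ⟨inferInstance, ?_⟩
  rw [LinearMap.finrank_range_of_inj (pqy_injective H _ _)]
  simp

theorem lpow_lineH (H : Hyp x y f ι) (t : ℕ) (v : Point K) :
    v.val ((lpow (lineH H.curve H.x_ne 1) t).frame v : K) =
      v.val ((lineH H.curve H.x_ne t).frame v : K) := by
  change v.val (((Units.mk0 (dgen x v 1) (dgen_ne H.x_ne v 1)) ^ (t : ℤ) : Kˣ) : K) =
    v.val (dgen x v t)
  rw [zpow_natCast, Units.val_pow_eq_pow_val, Units.val_mk0]
  by_cases hv : v.val x ≤ 1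
  · rw [dgen_fin hv, dgen_fin hv, one_pow]
  · rw [dgen_inf (not_le.1 hv), dgen_inf (not_le.1 hv), pow_one]

theorem genus_hyp (H : Hyp x y f ι) {g : ℕ} (hg : 1 ≤ g) (hf : f.natDegree = 2 * (g + 1)) :
    genus K = g := by
  refine Pool.Agent.W518.EG.s_GEN K H.curve 2 g (g + 1) (lineH H.curve H.x_ne 1) (by norm_num) hg
    (by rw [degree_lineH' H]; norm_num) fun t ht => ?_
  have h1 : H0 (lpow (lineH H.curve H.x_ne 1) t) = H0 (lineH H.curve H.x_ne t) := by
    ext z
    refine forall_congr' fun v => ?_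
    change v.val z ≤ v.val _ ↔ v.val z ≤ v.val _
    rw [lpow_lineH H t v]
  rw [h1]
  obtain ⟨h2, h3⟩ := finrank_lineH H hf ht
  refine ⟨h2, ?_⟩
  rw [h3]
  push_cast
  omega

/-- **Hyperelliptic curves exist in every genus.** -/
theorem exists_hyperelliptic (g : ℕ) (hg : 1 ≤ g) :
    ∃ (K : Type) (_ : Field K) (_ : Algebra ℂ K), IsCurve K ∧ genus K = g ∧
      ∃ A : LineBundle K, A.degree = 2 ∧ 2 ≤ h0 A := by
  have H := hyp g
  refine ⟨HK g, inferInstance, inferInstance, HK_isCurve g,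
    genus_hyp H hg (by rw [hf_natDegree]; ring), lineH H.curve H.x_ne 1,
    by rw [degree_lineH' H]; norm_num, ?_⟩
  have hgen := genus_hyp H hg (by rw [hf_natDegree]; ring)
  have h2 : LinearMap.range (pev (hx g) 2) ≤ H0 (lineH H.curve H.x_ne 1) := by
    rintro _ ⟨c, rfl⟩ v
    exact pev_le v 1 c
  have h3 : FiniteDimensional ℂ (H0 (lineH H.curve H.x_ne 1)) :=
    H0_finite (HK_isCurve g) (by omega) _
  have h4 := Submodule.finrank_mono h2
  rw [LinearMap.finrank_range_of_inj (pev_injective H.trans 2)] at h4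
  unfold h0
  simpa using h4

end Pool.Agent.Y207.BN
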