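import Pool.Agent.Y207.BN.Mult

/-!
# The loci of curves with a series of Clifford index zero
-/

set_option autoImplicit false
set_option linter.unusedSectionVars false

open scoped WithZero Polynomial IntermediateField
open WithZero

namespace Pool.Agent.Y207.BN

open Pool.Agent.Helper395.CS hiding genus
open Pool.Agent.Helper395.BC
open Pool.Agent.W518.PC (lpow)

variable {K : Type} [Field K] [Algebra ℂ K]

/-- a `g^r_{2r}` with `1 ≤ r`, `2r ≤ g - 1` exists only on curves with a `g^1_2` -/
theorem hyp_of_series (hK : IsCurve K) {r : ℕ} (hr : 1 ≤ r) (hg : 2 * r + 1 ≤ genus K)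
    {L : LineBundle K} (hL : L.degree = 2 * r) (h : r + 1 ≤ h0 L) :
    ∃ A : LineBundle K, A.degree = 2 ∧ 2 ≤ h0 A := by
  exact clifford_eq hK (by omega) (2 * r) L (by rw [hL]; push_cast; ring) (by omega) (by omega)
    (by omega)

theorem add_points (hK : IsCurve K) (hg : genus K ≠ 0) {L : LineBundle K} {s : ℕ}
    (h : s ≤ h0 L) (n : ℕ) : ∃ M : LineBundle K, M.degree = L.degree + n ∧ s ≤ h0 M := by
  induction n with
  | zero => exact ⟨L, by simp, h⟩
  | succ n ih =>
    obtain ⟨M, h1, h2⟩ := ih
    obtain ⟨v⟩ := point_nonempty hK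
    refine ⟨lmul M (lpt v), by rw [lmul_degree, lpt_degree, h1]; push_cast; ring, ?_⟩
    have f1 := H0_finite hK hg (lmul M (lpt v))
    exact h2.trans (Submodule.finrank_mono (H0_mono (le_lmul_lpt M v)))

/-- a curve with a `g^1_2` has a `g^s_e` for all `2 s ≤ e` -/
theorem series_of_hyp (hK : IsCurve K) (hg : genus K ≠ 0) {A : LineBundle K} (hA : A.degree = 2)
    (h : 2 ≤ h0 A) {s e : ℕ} (hse : 2 * s ≤ e) :
    ∃ M : LineBundle K, M.degree = e ∧ s + 1 ≤ h0 M := by
  obtain ⟨M, h1, h2⟩ := add_points hK hg (h0_lpow hK hg h s) (e - 2 * s)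
  refine ⟨M, ?_, h2⟩
  rw [h1, lpow_degree', hA]
  omega

/-- on a curve of genus at least one, `L` of nonnegative degree `≤ g - 1` satisfies Clifford -/
theorem clifford_ge (hK : IsCurve K) (hg : genus K ≠ 0) : ∀ (N : ℕ) (L : LineBundle K),
    L.degree = N → N + 1 ≤ genus K → 2 * h0 L ≤ N + 2 := by
  intro N
  induction N using Nat.strong_induction_on with
  | _ N ih =>
    intro L hL hN
    by_contra hcon
    push Not at hcon
    rcases Nat.lt_or_ge N 1 with h | h
    · have h00 : N = 0 := by omega
      subst h00
      -- degree zero: at most one section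
      obtain ⟨v⟩ := point_nonempty hK
      have h1 := h0_le_lsub hK hg L v
      have h2 : h0 (lsub L v) = 0 := by
        have h3 : (lsub L v).degree < 0 := by
          rw [lsub_degree, hL]
          norm_num
        unfold h0
        rw [H0_eq_bot hK h3]
        simp
      omega
    · rcases Nat.lt_or_ge N 2 with h' | h'
      · have h00 : N = 1 := by omega
        subst h00
        -- degree one: at most one section since the genus is positive
        obtain ⟨v⟩ := point_nonempty hK
        have h1 := h0_le_lsub hK hg L v
        have h3 : (lsub L v).degree = ((0 : ℕ) : ℤ) := by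
          rw [lsub_degree, hL]
          norm_num
        have h2 := ih 0 (by omega) (lsub L v) h3 (by omega)
        have h4 : h0 L = 2 := by omega
        -- a pencil of degree one
        obtain ⟨n, hn⟩ : ∃ n : ℕ, n = 2 * genus K := ⟨_, rfl⟩
        have h5 := h0_lpow hK hg (A := L) (by omega) n
        have h6 := rr' hK hg (lpow L (n : ℤ))
        rw [lpow_degree', hL] at h6
        have h7 : h0 (kd hK hg (lpow L (n : ℤ))) = 0 := by
          have h8 : (kd hK hg (lpow L (n : ℤ))).degree < 0 := by
            rw [kd_degree, lpow_degree', hL]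
            push_cast
            omega
          unfold h0
          rw [H0_eq_bot hK h8]
          simp
        rw [h7] at h6
        push_cast at h6
        omega
      · have h11 := rr' hK hg L
        have hkd := kd_degree hK hg L
        obtain ⟨F, hF1, hF2, hF3⟩ := clifford_step hK hg L (by omega) (by omega) (by omega)
        obtain ⟨m, hm⟩ := Int.eq_ofNat_of_zero_le (by omega : 0 ≤ F.degree)
        have h9 := ih m (by omega) F hm (by omega)
        omega

end Pool.Agent.Y207.BN
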