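import Pool.Agent.Helper395.CS.Genus

/-!
# The hyperelliptic curves `y² = x^(2g+2) + 1`
-/

set_option autoImplicit false
set_option linter.unusedSectionVars false

open scoped WithZero Matrix Polynomial IntermediateField TensorProduct
open WithZero

namespace Pool.Agent.Y207.BN

open Pool.Agent.Helper395.CS

/-- the polynomial `X ^ (2 g + 2) + 1` -/
noncomputable def hf (g : ℕ) : ℂ[X] := Polynomial.X ^ (2 * g + 2) + 1

theorem hf_natDegree (g : ℕ) : (hf g).natDegree = 2 * g + 2 := by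
  rw [hf, ← Polynomial.C_1]
  exact Polynomial.natDegree_X_pow_add_C

theorem hf_separable (g : ℕ) : (hf g).Separable := by
  have h : hf g = Polynomial.X ^ (2 * g + 2) - Polynomial.C (-1) := by
    rw [hf, map_neg, sub_neg_eq_add, Polynomial.C_1]
  rw [h]
  refine Polynomial.separable_X_pow_sub_C (-1) ?_ (by norm_num)
  exact_mod_cast (by omega : 2 * g + 2 ≠ 0)

/-- `hf` as a rational function -/
noncomputable def hF (g : ℕ) : RatFunc ℂ := algebraMap ℂ[X] (RatFunc ℂ) (hf g)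

/-- the polynomial `Y ^ 2 - (X ^ (2 g + 2) + 1)` -/
noncomputable def hP (g : ℕ) : (RatFunc ℂ)[X] := Polynomial.X ^ 2 - Polynomial.C (hF g)

theorem hF_not_sq (g : ℕ) (b : RatFunc ℂ) : b ^ 2 ≠ hF g := by
  intro h
  have h1 : IsIntegral ℂ[X] (b ^ 2) := by
    rw [h]
    exact isIntegral_algebraMap
  obtain ⟨p, rfl⟩ := IsIntegrallyClosed.exists_algebraMap_eq_of_isIntegral_pow (R := ℂ[X])
    (K := RatFunc ℂ) (n := 2) (by norm_num) h1
  rw [← map_pow] at h
  have h2 : p ^ 2 = hf g := IsFractionRing.injective ℂ[X] (RatFunc ℂ) h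
  have h3 : IsUnit p := (hf_separable g).squarefree p (by rw [← h2, pow_two])
  have h4 := Polynomial.natDegree_eq_zero_of_isUnit h3
  have h5 := hf_natDegree g
  rw [← h2, Polynomial.natDegree_pow, h4] at h5
  omega

theorem hP_irreducible (g : ℕ) : Irreducible (hP g) :=
  X_pow_sub_C_irreducible_of_prime Nat.prime_two fun b => hF_not_sq g b

instance hP_fact (g : ℕ) : Fact (Irreducible (hP g)) := ⟨hP_irreducible g⟩

/-- the function field of `y² = x^(2g+2) + 1` -/
abbrev HK (g : ℕ) : Type := AdjoinRoot (hP g)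

/-- the coordinate function `x` -/
noncomputable def hx (g : ℕ) : HK g := algebraMap (RatFunc ℂ) (HK g) RatFunc.X

/-- the coordinate function `y` -/
noncomputable def hy (g : ℕ) : HK g := AdjoinRoot.root (hP g)

theorem aeval_hx (g : ℕ) (p : ℂ[X]) : Polynomial.aeval (hx g) p =
    algebraMap (RatFunc ℂ) (HK g) (algebraMap ℂ[X] (RatFunc ℂ) p) := by
  have h1 : hx g = algebraMap (RatFunc ℂ) (HK g) (algebraMap ℂ[X] (RatFunc ℂ) Polynomial.X) := by
    rw [hx, RatFunc.algebraMap_X]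
  rw [h1, Polynomial.aeval_algebraMap_apply, Polynomial.aeval_algebraMap_apply,
    Polynomial.aeval_X_left_apply]

theorem hy_sq (g : ℕ) : hy g ^ 2 = Polynomial.aeval (hx g) (hf g) := by
  rw [aeval_hx]
  have h := AdjoinRoot.eval₂_root (hP g)
  rw [hP, Polynomial.eval₂_sub, Polynomial.eval₂_X_pow, Polynomial.eval₂_C, sub_eq_zero] at h
  exact h

theorem hx_transcendental (g : ℕ) : Transcendental ℂ (hx g) := by
  rw [transcendental_iff]
  intro p hp
  rw [aeval_hx] at hp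
  rw [← map_zero (algebraMap (RatFunc ℂ) (HK g))] at hp
  have h1 := (algebraMap (RatFunc ℂ) (HK g)).injective hp
  rw [← map_zero (algebraMap ℂ[X] (RatFunc ℂ))] at h1
  exact IsFractionRing.injective ℂ[X] (RatFunc ℂ) h1

theorem hP_monic (g : ℕ) : (hP g).Monic := Polynomial.monic_X_pow_sub_C _ (by norm_num)

instance HK_finite (g : ℕ) : Module.Finite (RatFunc ℂ) (HK g) := (hP_monic g).finite_adjoinRoot

theorem HK_isCurve (g : ℕ) : IsCurve (HK g) where
  fg := by
    rw [IntermediateField.fg_top_iff]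
    have h1 : Algebra.EssFiniteType ℂ[X] (RatFunc ℂ) :=
      Algebra.EssFiniteType.of_isLocalization _ (nonZeroDivisors ℂ[X])
    have h2 : Algebra.EssFiniteType ℂ (RatFunc ℂ) := Algebra.EssFiniteType.comp ℂ ℂ[X] (RatFunc ℂ)
    exact Algebra.EssFiniteType.comp ℂ (RatFunc ℂ) (HK g)
  trdeg := by
    have h1 := trdeg_add_eq ℂ (RatFunc ℂ) (A := HK g)
    have h2 := trdeg_add_eq ℂ ℂ[X] (A := RatFunc ℂ)
    have h3 : Algebra.IsAlgebraic (RatFunc ℂ) (HK g) := Algebra.IsAlgebraic.of_finite _ _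
    have h4 : Algebra.IsAlgebraic ℂ[X] (RatFunc ℂ) := IsLocalization.isAlgebraic _ (nonZeroDivisors ℂ[X])
    rw [trdeg_eq_zero (R := RatFunc ℂ), add_zero] at h1
    rw [trdeg_eq_zero (R := ℂ[X]), add_zero] at h2
    rw [← h1, ← h2, Polynomial.trdeg_of_isDomain]

/-- the hyperelliptic involution, over `ℂ(x)` -/
noncomputable def hι' (g : ℕ) : HK g →ₐ[RatFunc ℂ] HK g :=
  AdjoinRoot.liftAlgHom (hP g) (Algebra.ofId (RatFunc ℂ) (HK g)) (-hy g) (by
    change Polynomial.eval₂ _ _ (Polynomial.X ^ 2 - Polynomial.C (hF g)) = 0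
    rw [Polynomial.eval₂_sub, Polynomial.eval₂_X_pow, Polynomial.eval₂_C, neg_sq, hy_sq,
      aeval_hx, sub_eq_zero]
    rfl)

theorem hι'_y (g : ℕ) : hι' g (hy g) = -hy g :=
  AdjoinRoot.liftAlgHom_root _ _ _ _

theorem hι'_comp (g : ℕ) : (hι' g).comp (hι' g) = AlgHom.id (RatFunc ℂ) (HK g) := by
  apply AdjoinRoot.algHom_ext
  change hι' g (hι' g (hy g)) = hy g
  rw [hι'_y, map_neg, hι'_y, neg_neg]

/-- the hyperelliptic involution -/
noncomputable def hι (g : ℕ) : HK g ≃ₐ[ℂ] HK g :=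
  (AlgEquiv.ofAlgHom (hι' g) (hι' g) (hι'_comp g) (hι'_comp g)).restrictScalars ℂ

theorem algebraMap_mem_hx (g : ℕ) (a : RatFunc ℂ) : algebraMap (RatFunc ℂ) (HK g) a ∈ ℂ⟮hx g⟯ := by
  rw [← RatFunc.num_div_denom a, map_div₀, ← aeval_hx, ← aeval_hx]
  exact div_mem (mem_adj _) (mem_adj _)

theorem hspan (g : ℕ) (z : HK g) : ∃ a ∈ ℂ⟮hx g⟯, ∃ b ∈ ℂ⟮hx g⟯, z = a + b * hy g := by
  obtain ⟨p, rfl⟩ := AdjoinRoot.mk_surjective z
  have h1 := Polynomial.modByMonic_add_div p (hP g)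
  have hdeg : (p %ₘ hP g).natDegree < 2 := by
    have := Polynomial.natDegree_modByMonic_lt p (hP_monic g) (by
      intro h
      have := congrArg Polynomial.natDegree h
      rw [hP, Polynomial.natDegree_X_pow_sub_C, Polynomial.natDegree_one] at this
      omega)
    rwa [hP, Polynomial.natDegree_X_pow_sub_C] at this
  obtain ⟨a, b, hab⟩ := Polynomial.exists_eq_X_add_C_of_natDegree_le_one (Nat.lt_succ_iff.1 hdeg)
  refine ⟨_, algebraMap_mem_hx g b, _, algebraMap_mem_hx g a, ?_⟩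
  rw [← h1, hab, map_add, map_add, map_mul, map_mul, AdjoinRoot.mk_self, zero_mul, add_zero,
    AdjoinRoot.mk_X, AdjoinRoot.mk_C, AdjoinRoot.mk_C, add_comm]
  rfl

theorem hyp (g : ℕ) : Hyp (hx g) (hy g) (hf g) (hι g) where
  curve := HK_isCurve g
  trans := hx_transcendental g
  eq := hy_sq g
  sep := hf_separable g
  span := hspan g
  inv_x := by
    change hι' g (algebraMap (RatFunc ℂ) (HK g) RatFunc.X) = _
    rw [AlgHom.commutes]
    rfl
  inv_y := hι'_y g

end Pool.Agent.Y207.BN
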