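import Pool.Agent.Y207.BN.HypGenus

/-!
# Multiples of pencils
-/

set_option autoImplicit false
set_option linter.unusedSectionVars false

open scoped WithZero Polynomial IntermediateField
open WithZero

namespace Pool.Agent.Y207.BN

open Pool.Agent.Helper395.CS hiding genus
open Pool.Agent.Helper395.BC
open Pool.Agent.W518.PC (lpow)

variable {K : Type} [Field K] [Algebra ℂ K]

/-- a nonconstant function is transcendental -/
theorem transcendental_of_notMem {t : K} (ht : ∀ c : ℂ, t ≠ algebraMap ℂ K c) :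
    Transcendental ℂ t := by
  intro hal
  have h1 : IsIntegral ℂ t := hal.isIntegral
  have h2 : (minpoly ℂ t).degree = 1 := IsAlgClosed.degree_eq_one_of_irreducible ℂ (minpoly.irreducible h1)
  obtain ⟨c, hc⟩ := minpoly.mem_range_of_degree_eq_one ℂ t h2
  exact ht c hc.symm

/-- two sections with nonconstant quotient -/
theorem exists_pencil {A : LineBundle K} (h : 2 ≤ h0 A) :
    ∃ a b : K, a ∈ H0 A ∧ b ∈ H0 A ∧ a ≠ 0 ∧ Transcendental ℂ (b / a) := by
  have h1 : 1 < Module.finrank ℂ (H0 A) := h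
  obtain ⟨a, ha0, ha⟩ := exists_ne_zero_of_h0 (by omega : 1 ≤ h0 A)
  by_contra hcon
  push Not at hcon
  have h2 : ∀ b ∈ H0 A, ∃ c : ℂ, c • a = b := by
    intro b hb
    have h3 := hcon a b ha hb ha0
    by_contra hno
    push Not at hno
    refine h3 (transcendental_of_notMem fun c hc => hno c ?_)
    rw [Algebra.smul_def, ← hc, div_mul_cancel₀ _ ha0]
  have h4 : Module.finrank ℂ (H0 A) ≤ 1 := by
    refine finrank_le_one (⟨a, ha⟩ : H0 A) fun w => ?_
    obtain ⟨c, hc⟩ := h2 w.1 w.2
    exact ⟨c, Subtype.ext hc⟩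
  omega

theorem lpow_val (A : LineBundle K) (s : ℕ) (v : Point K) :
    v.val ((lpow A s).frame v : K) = v.val (A.frame v : K) ^ s := by
  change v.val ((A.frame v ^ (s : ℤ) : Kˣ) : K) = _
  rw [zpow_natCast, Units.val_pow_eq_pow_val, map_pow]

/-- **Multiples of a pencil.** -/
theorem h0_lpow (hK : IsCurve K) (hg : genus K ≠ 0) {A : LineBundle K} (h : 2 ≤ h0 A) (s : ℕ) :
    s + 1 ≤ h0 (lpow A s) := by
  obtain ⟨a, b, ha, hb, ha0, ht⟩ := exists_pencil h
  have hf := H0_finite hK hg (lpow A s)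
  set φ : (Fin (s + 1) → ℂ) →ₗ[ℂ] K := (LinearMap.mulRight ℂ (a ^ s)).comp (pev (b / a) (s + 1))
    with hφ
  have hinj : Function.Injective φ := by
    intro c d hcd
    refine pev_injective ht (s + 1) ?_
    exact mul_right_cancel₀ (pow_ne_zero s ha0) hcd
  have hle : LinearMap.range φ ≤ H0 (lpow A s) := by
    rintro _ ⟨c, rfl⟩ v
    change v.val (pev (b / a) (s + 1) c * a ^ s) ≤ v.val ((lpow A s).frame v : K)
    rw [pev_apply, Finset.sum_mul, lpow_val]
    refine Valuation.map_sum_le _ fun j _ => ?_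
    have e1 : c j • (b / a) ^ (j : ℕ) * a ^ s = c j • (b ^ (j : ℕ) * a ^ (s - j)) := by
      have hj : (j : ℕ) + (s - j) = s := by omega
      have e2 : a ^ s = a ^ (j : ℕ) * a ^ (s - j) := by rw [← pow_add, hj]
      rw [smul_mul_assoc, div_pow, e2]
      congr 1
      field_simp
    rw [e1, Algebra.smul_def, map_mul, map_mul, map_pow, map_pow]
    refine (mul_le_of_le_one_left' (v.const_le _)).trans ?_
    have hj : (j : ℕ) + (s - j) = s := by omega
    calc v.val b ^ (j : ℕ) * v.val a ^ (s - j) ≤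
        v.val (A.frame v : K) ^ (j : ℕ) * v.val (A.frame v : K) ^ (s - j) :=
          mul_le_mul' (pow_le_pow_left₀ zero_le (hb v) _) (pow_le_pow_left₀ zero_le (ha v) _)
      _ = v.val (A.frame v : K) ^ s := by rw [← pow_add, hj]
  have h1 := Submodule.finrank_mono hle
  rw [LinearMap.finrank_range_of_inj hinj] at h1
  unfold h0
  simpa using h1

theorem lpow_degree' (A : LineBundle K) (s : ℕ) : (lpow A s).degree = s * A.degree := by
  rw [Pool.Agent.W45.PCG.lpow_degree]

end Pool.Agent.Y207.BN
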